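import Mathlib

/-!
Definitions: blossoms, stems, flowers, reach sets, `R`-disjoint graphs.
-/

namespace Pool.Agent.Lib_MP_079569_co

open SimpleGraph

variable {V : Type*} {G : SimpleGraph V}

/-- An odd cycle of `G`, as a subgraph. -/
def IsOddCycle (G : SimpleGraph V) (C : G.Subgraph) : Prop :=
  ∃ (v : V) (w : G.Walk v v), w.IsCycle ∧ Odd w.length ∧ w.toSubgraph = C

/-- `M` is a maximum matching of `G`. -/
def IsMaxMatching (G : SimpleGraph V) (M : G.Subgraph) : Prop :=
  M.IsMatching ∧ ∀ M' : G.Subgraph, M'.IsMatching → M'.edgeSet.ncard ≤ M.edgeSet.ncard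

/-- `C` is an `M`-blossom with base `b`: an odd cycle with `2t + 1` vertices, exactly `t` of whose
edges lie in `M`, and `b` is its vertex that is not covered by these `t` edges. -/
structure IsBlossom (M C : G.Subgraph) (b : V) : Prop where
  isOddCycle : IsOddCycle G C
  card_verts : C.verts.ncard = 2 * (C.edgeSet ∩ M.edgeSet).ncard + 1
  base_mem : b ∈ C.verts
  base_free : ∀ e ∈ C.edgeSet ∩ M.edgeSet, b ∉ e

/-- `P` is an `M`-stem for the blossom `C` with base `b`: a path of even length, alternating with
respect to `M`, that joins the base `b` to a vertex `u` left uncovered by `M` and meets `C` only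
at `b`. (The path is written here as a walk from `u` to `b`.) -/
structure IsStem (M C : G.Subgraph) {u b : V} (P : G.Walk u b) : Prop where
  isPath : P.IsPath
  even_length : Even P.length
  alternating : P.edges.IsChain (fun e f => e ∈ M.edgeSet ↔ f ∉ M.edgeSet)
  uncovered : u ∉ M.verts
  inter_eq : ∀ x ∈ P.support, x ∈ C.verts → x = b

/-- The reach set `R(C)`: the union of the vertex sets of all the `M`-flowers with blossom `C`,
over all the maximum matchings `M` of `G`. -/
def reach (G : SimpleGraph V) (C : G.Subgraph) : Set V :=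
  {x | ∃ M : G.Subgraph, IsMaxMatching G M ∧ ∃ (u b : V) (P : G.Walk u b),
    IsBlossom M C b ∧ IsStem M C P ∧ (x ∈ C.verts ∨ x ∈ P.support)}

/-- `G` is `R`-disjoint. -/
structure RDisjoint (G : SimpleGraph V) : Prop where
  exists_isOddCycle : ∃ C : G.Subgraph, IsOddCycle G C
  reach_nonempty : ∀ C : G.Subgraph, IsOddCycle G C → (reach G C).Nonempty
  disjoint : ∀ C C' : G.Subgraph, IsOddCycle G C → IsOddCycle G C' → C ≠ C' →
    Disjoint (reach G C) (reach G C')

/-- `B(G)`: the vertices outside all the reach sets of odd cycles. -/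
def bipartitePart (G : SimpleGraph V) : Set V :=
  {x | ∀ C : G.Subgraph, IsOddCycle G C → x ∉ reach G C}

end Pool.Agent.Lib_MP_079569_co
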