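import Mathlib
import Pool.Agent.Lib_MP_079569_co.Defs

/-!
Odd closed walks contain odd cycles; near perfect matchings of odd cycles.
-/

namespace Pool.Agent.Lib_MP_079569_co

open SimpleGraph

variable {V : Type*} {G : SimpleGraph V}

theorem exists_split {u v : V} (p : G.Walk v u) (hp : ¬ p.IsPath) :
    ∃ (x : V) (p1 : G.Walk v x) (c : G.Walk x x) (p2 : G.Walk x u),
      p = p1.append (c.append p2) ∧ 0 < c.length := by
  classical
  induction p with
  | nil => exact absurd Walk.IsPath.nil hp
  | @cons v w u h q ih =>
    by_cases hv : v ∈ q.support
    · refine ⟨v, Walk.nil, Walk.cons h (q.takeUntil v hv), q.dropUntil v hv, ?_, by simp⟩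
      simp
    · have hq : ¬ q.IsPath := fun hq => hp (by rw [Walk.cons_isPath_iff]; exact ⟨hq, hv⟩)
      obtain ⟨x, p1, c, p2, h1, h2⟩ := ih hq
      exact ⟨x, Walk.cons h p1, c, p2, by rw [h1]; simp, h2⟩

/-- an odd closed walk contains an odd cycle -/
theorem exists_odd_cycle : ∀ (n : ℕ) (u : V) (w : G.Walk u u), w.length = n → Odd w.length →
    ∃ (v : V) (c : G.Walk v v), c.IsCycle ∧ Odd c.length := by
  intro n
  induction n using Nat.strong_induction_on with
  | _ n ih =>
    intro u w hn hodd
    cases w with
    | nil => simp at hodd
    | @cons _ v _ h p =>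
      by_cases hp : p.IsPath
      · refine ⟨u, Walk.cons h p, ?_, hodd⟩
        rw [Walk.cons_isCycle_iff]
        refine ⟨hp, fun hmem => ?_⟩
        cases p with
        | nil => simp at hmem
        | @cons _ x _ h' q =>
          rw [Walk.cons_isPath_iff] at hp
          rw [Walk.edges_cons, List.mem_cons] at hmem
          rcases hmem with hmem | hmem
          · have hx : x = u := by
              rcases Sym2.eq_iff.1 hmem with ⟨h1, h2⟩ | ⟨h1, h2⟩
              · exact absurd h1 h.ne
              · exact h1.symm
            subst hx
            have := (Walk.isPath_iff_nil.1 hp.1).eq_nil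
            subst this
            simp only [Walk.length_cons, Walk.length_nil] at hodd
            exact absurd hodd (by decide)
          · exact hp.2 (Walk.snd_mem_support_of_mem_edges q hmem)
      · obtain ⟨x, p1, c, p2, h1, h2⟩ := exists_split p hp
        subst h1
        simp only [Walk.length_cons, Walk.length_append] at hn hodd
        rcases Nat.even_or_odd c.length with he | ho
        · refine ih (Walk.cons h (p1.append p2)).length ?_ u _ rfl ?_
          · simp only [Walk.length_cons, Walk.length_append]
            omega
          · simp only [Walk.length_cons, Walk.length_append]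
            rw [Nat.odd_iff] at hodd ⊢
            rw [Nat.even_iff] at he
            omega
        · exact ih c.length (by omega) x c rfl ho

theorem colorable_two_of_no_odd_cycle
    (h : ∀ (v : V) (c : G.Walk v v), c.IsCycle → ¬ Odd c.length) : G.Colorable 2 := by
  rw [two_colorable_iff_forall_loop_even]
  intro u w
  by_contra hw
  rw [Nat.not_even_iff_odd] at hw
  obtain ⟨v, c, hc, ho⟩ := exists_odd_cycle _ u w rfl hw
  exact h v c hc ho

/-- matching of all the vertices of a path of even length but the last one -/
theorem path_match {u v : V} (p : G.Walk u v) (hp : p.IsPath) (he : Even p.length) :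
    ∃ κ : V → V, (∀ x, κ (κ x) = x) ∧ (∀ x, x ∉ p.support → κ x = x) ∧ κ v = v ∧
      ∀ x ∈ p.support, x ≠ v → s(x, κ x) ∈ p.edges := by
  classical
  suffices H : ∀ (n : ℕ) (u v : V) (p : G.Walk u v), p.length = n → p.IsPath → Even p.length →
      ∃ κ : V → V, (∀ x, κ (κ x) = x) ∧ (∀ x, x ∉ p.support → κ x = x) ∧ κ v = v ∧
      ∀ x ∈ p.support, x ≠ v → s(x, κ x) ∈ p.edges from H _ u v p rfl hp he
  intro n
  induction n using Nat.strong_induction_on with
  | _ n ih =>
    intro u v p hn hp he
    cases p with
    | nil =>
      refine ⟨id, fun _ => rfl, fun _ _ => rfl, rfl, fun x hx hne => ?_⟩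
      simp only [Walk.support_nil, List.mem_singleton] at hx
      exact absurd hx hne
    | @cons _ w _ h q =>
      cases q with
      | nil =>
        simp only [Walk.length_cons, Walk.length_nil] at he
        exact absurd he (by decide)
      | @cons _ y _ h' r =>
        simp only [Walk.length_cons] at hn he
        simp only [Walk.cons_isPath_iff, Walk.support_cons, List.mem_cons, not_or] at hp
        obtain ⟨⟨hr, hw⟩, huw, hu⟩ := hp
        have her : Even r.length := by
          rw [Nat.even_iff] at he ⊢
          omega
        obtain ⟨κ, k1, k2, k3, k4⟩ := ih r.length (by omega) y v r rfl hr her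
        have hκu : κ u = u := k2 u hu
        have hκw : κ w = w := k2 w hw
        have hvu : v ≠ u := fun h => hu (h ▸ r.end_mem_support)
        have hvw : v ≠ w := fun h => hw (h ▸ r.end_mem_support)
        have hκne : ∀ x, x ≠ u → x ≠ w → κ x ≠ u ∧ κ x ≠ w := by
          intro x h1 h2
          constructor
          · intro h3
            apply h1
            rw [← k1 x, h3, hκu]
          · intro h3
            apply h2
            rw [← k1 x, h3, hκw]
        refine ⟨fun x => if x = u then w else if x = w then u else κ x, ?_, ?_, ?_, ?_⟩
        · intro x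
          by_cases h1 : x = u
          · subst h1
            simp [h.ne.symm]
          · by_cases h2 : x = w
            · subst h2
              simp [h.ne.symm]
            · have := hκne x h1 h2
              simp [h1, h2, this.1, this.2, k1]
        · intro x hx
          simp only [Walk.support_cons, List.mem_cons, not_or] at hx
          simp [hx.1, hx.2.1, k2 x hx.2.2]
        · simp [hvu, hvw, k3]
        · intro x hx hne
          simp only [Walk.support_cons, List.mem_cons] at hx
          simp only [Walk.edges_cons, List.mem_cons]
          by_cases h1 : x = u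
          · subst h1
            simp
          · by_cases h2 : x = w
            · subst h2
              rw [if_neg h1, if_pos rfl]
              exact Or.inl Sym2.eq_swap
            · rcases hx with hx | hx | hx
              · exact absurd hx h1
              · exact absurd hx h2
              · simp only [h1, h2, if_false]
                exact Or.inr (Or.inr (k4 x hx hne))

/-- near perfect matching of an odd cycle -/
theorem IsOddCycle.exists_match {C : G.Subgraph} (hC : IsOddCycle G C) {v : V} (hv : v ∈ C.verts) :
    ∃ κ : V → V, (∀ x, κ (κ x) = x) ∧ (∀ x, x ∉ C.verts → κ x = x) ∧ κ v = v ∧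
      ∀ x ∈ C.verts, x ≠ v → C.Adj x (κ x) := by
  classical
  obtain ⟨u, w, hw, hodd, rfl⟩ := hC
  rw [Walk.mem_verts_toSubgraph] at hv
  have hw' := hw.rotate hv
  have hlen : (w.rotate v hv).length = w.length := by
    rw [← Walk.length_edges, ← Walk.length_edges]
    exact (Walk.rotate_edges w v hv).perm.length_eq
  have hsub : (w.rotate v hv).toSubgraph = w.toSubgraph := Walk.toSubgraph_rotate w hv
  rw [← hsub]
  rw [← hlen] at hodd
  generalize w.rotate v hv = w' at *
  cases w' with
  | nil => simp at hodd
  | @cons _ x _ h p =>
    rw [Walk.cons_isCycle_iff] at hw'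
    have he : Even p.length := by
      rw [Walk.length_cons, Nat.odd_iff] at hodd
      rw [Nat.even_iff]
      omega
    obtain ⟨κ, k1, k2, k3, k4⟩ := path_match p hw'.1 he
    refine ⟨κ, k1, ?_, k3, ?_⟩
    · intro x hx
      apply k2
      intro h'
      apply hx
      rw [Walk.mem_verts_toSubgraph, Walk.support_cons]
      exact List.mem_cons_of_mem _ h'
    · intro y hy hne
      have hy' : y ∈ p.support := by
        rw [Walk.mem_verts_toSubgraph, Walk.support_cons, List.mem_cons] at hy
        rcases hy with hy | hy
        · exact absurd hy hne
        · exact hy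
      have := k4 y hy' hne
      rw [← Subgraph.mem_edgeSet, Walk.mem_edges_toSubgraph, Walk.edges_cons]
      exact List.mem_cons_of_mem _ this

theorem IsOddCycle.nonempty {C : G.Subgraph} (hC : IsOddCycle G C) : C.verts.Nonempty := by
  obtain ⟨u, w, hw, hodd, rfl⟩ := hC
  exact ⟨u, by simp⟩

end Pool.Agent.Lib_MP_079569_co
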