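import Mathlib
import Pool.Agent.Lib_MP_079569_co.OddCycle

/-!
The parity function around an odd cycle.
-/

namespace Pool.Agent.Lib_MP_079569_co

open SimpleGraph Finset

variable {V : Type*} {G : SimpleGraph V}

/-- `G[R]` minus an edge -/
def del (G : SimpleGraph V) (R : Set V) (e : Sym2 V) : SimpleGraph V where
  Adj x y := G.Adj x y ∧ x ∈ R ∧ y ∈ R ∧ s(x, y) ≠ e
  symm := ⟨fun _ _ h => ⟨h.1.symm, h.2.2.1, h.2.1, by rw [Sym2.eq_swap]; exact h.2.2.2⟩⟩
  loopless := ⟨fun _ h => h.1.ne rfl⟩

/-- `G[R]` as a graph on all the vertices -/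
def res (G : SimpleGraph V) (R : Set V) : SimpleGraph V where
  Adj x y := G.Adj x y ∧ x ∈ R ∧ y ∈ R
  symm := ⟨fun _ _ h => ⟨h.1.symm, h.2.2, h.2.1⟩⟩
  loopless := ⟨fun _ h => h.1.ne rfl⟩

theorem del_le (R : Set V) (e : Sym2 V) : del G R e ≤ G := fun _ _ h => h.1

theorem del_support {R : Set V} {e : Sym2 V} {u v : V} (w : (del G R e).Walk u v)
    (hw : 0 < w.length) : ∀ x ∈ w.support, x ∈ R := by
  induction w with
  | nil => simp at hw
  | @cons a b c h p ih =>
    intro x hx
    rw [Walk.support_cons, List.mem_cons] at hx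
    rcases hx with rfl | hx
    · exact h.2.1
    · cases p with
      | nil =>
        simp only [Walk.support_nil, List.mem_singleton] at hx
        subst hx
        exact h.2.2.1
      | cons h' q => exact ih (by simp) x hx

theorem colorable_del {R : Set V} {C : G.Subgraph}
    (huniq : ∀ C' : G.Subgraph, IsOddCycle G C' → C'.verts ⊆ R → C' = C)
    {e : Sym2 V} (he : e ∈ C.edgeSet) : (del G R e).Colorable 2 := by
  refine colorable_two_of_no_odd_cycle fun v c hc hodd => ?_
  have hc' : (c.mapLe (del_le R e)).IsCycle := hc.mapLe (del_le R e)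
  have hsupp : ∀ x ∈ c.support, x ∈ R := by
    refine del_support c ?_
    rcases hodd with ⟨k, hk⟩
    omega
  have hC : (c.mapLe (del_le R e)).toSubgraph = C := by
    refine huniq _ ⟨v, _, hc', by simpa using hodd, rfl⟩ ?_
    intro x hx
    rw [Walk.mem_verts_toSubgraph] at hx
    exact hsupp x (by simpa using hx)
  rw [← hC, Walk.mem_edges_toSubgraph] at he
  have he2 : e ∈ c.edges := by simpa using he
  have := Walk.edges_subset_edgeSet c he2
  induction e using Sym2.ind with
  | _ x y =>
    rw [SimpleGraph.mem_edgeSet] at this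
    exact this.2.2.2 rfl

theorem zmod_two_add {a b : ZMod 2} (h : a ≠ b) : a + b = 1 := by
  revert h; revert a b; decide

theorem zmod_two_self (a : ZMod 2) : a + a = 0 := by
  revert a; decide

theorem exists_parity [Fintype V] {R : Set V} {C : G.Subgraph} (hC : IsOddCycle G C)
    (hCR : C.verts ⊆ R)
    (huniq : ∀ C' : G.Subgraph, IsOddCycle G C' → C'.verts ⊆ R → C' = C) :
    ∃ ψ : V → ZMod 2, (∀ x ∈ C.verts, ψ x = 0) ∧
      ∀ x y, x ∈ R → y ∈ R → G.Adj x y → ¬ C.Adj x y → ψ x ≠ ψ y := by
  classical
  have hcol : ∀ e ∈ C.edgeSet, ∃ χ : V → ZMod 2, ∀ x y, (del G R e).Adj x y → χ x ≠ χ y := by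
    intro e he
    obtain ⟨c⟩ := colorable_del huniq he
    exact ⟨fun v => c v, fun x y hxy => c.valid hxy⟩
  choose! χ hχ using hcol
  obtain ⟨u, w, hw, hodd, hwC⟩ := hC
  have hCfin : C.edgeSet.Finite := Set.toFinite _
  set E : Finset (Sym2 V) := hCfin.toFinset with hE
  have hEcard : Odd #E := by
    have : E = w.edges.toFinset := by
      ext e
      rw [hE, Set.Finite.mem_toFinset, ← hwC, Walk.mem_edges_toSubgraph, List.mem_toFinset]
    rw [this, List.toFinset_card_of_nodup hw.edges_nodup, Walk.length_edges]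
    exact hodd
  have hcast : ((#E : ℕ) : ZMod 2) = 1 := by
    obtain ⟨k, hk⟩ := hEcard
    rw [hk]
    push_cast
    have : (2 : ZMod 2) = 0 := by decide
    rw [this]
    ring
  set ψ : V → ZMod 2 := fun v => ∑ e ∈ E, χ e v with hψ
  have hoff : ∀ x y, x ∈ R → y ∈ R → G.Adj x y → ¬ C.Adj x y → ψ x ≠ ψ y := by
    intro x y hx hy hxy hCxy heq
    have h1 : ψ x + ψ y = 1 := by
      rw [hψ]
      simp only
      rw [← sum_add_distrib, sum_congr rfl (g := fun _ => (1 : ZMod 2))]
      · rw [sum_const, nsmul_eq_mul, mul_one, hcast]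
      · intro e he
        have he' : e ∈ C.edgeSet := hCfin.mem_toFinset.1 he
        refine zmod_two_add (hχ e he' x y ⟨hxy, hx, hy, ?_⟩)
        rintro rfl
        exact hCxy he'
    rw [heq, zmod_two_self] at h1
    exact zero_ne_one h1
  have hon : ∀ x y, C.Adj x y → ψ x = ψ y := by
    intro x y hxy
    have he0 : s(x, y) ∈ E := hCfin.mem_toFinset.2 hxy
    have hG : G.Adj x y := C.adj_sub hxy
    have hx : x ∈ R := hCR (C.edge_vert hxy)
    have hy : y ∈ R := hCR (C.edge_vert hxy.symm)
    have h0 : χ s(x, y) x = χ s(x, y) y := by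
      by_contra hne
      have hcol : (res G R).Colorable 2 := by
        refine ⟨Coloring.mk (fun v => (χ s(x, y) v : Fin 2)) ?_⟩
        intro a b hab
        by_cases hab' : s(a, b) = s(x, y)
        · rcases Sym2.eq_iff.1 hab' with ⟨rfl, rfl⟩ | ⟨rfl, rfl⟩
          · exact hne
          · exact fun h => hne h.symm
        · exact hχ s(x, y) hxy a b ⟨hab.1, hab.2.1, hab.2.2, hab'⟩
      rw [two_colorable_iff_forall_loop_even] at hcol
      have htr : ∀ e ∈ w.edges, e ∈ (res G R).edgeSet := by
        intro e he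
        induction e using Sym2.ind with
        | _ a b =>
          have hab : C.Adj a b := by
            rw [← Subgraph.mem_edgeSet, ← hwC, Walk.mem_edges_toSubgraph]
            exact he
          exact ⟨C.adj_sub hab, hCR (C.edge_vert hab), hCR (C.edge_vert hab.symm)⟩
      have := hcol u (w.transfer (res G R) htr)
      rw [Walk.length_transfer] at this
      exact Nat.not_even_iff_odd.2 hodd this
    have h1 : ψ x + ψ y = 0 := by
      rw [hψ]
      simp only
      rw [← sum_add_distrib, ← add_sum_erase _ _ he0, h0, zmod_two_self, zero_add,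
        sum_congr rfl (g := fun _ => (1 : ZMod 2))]
      · rw [sum_const, nsmul_eq_mul, mul_one, card_erase_of_mem he0]
        obtain ⟨k, hk⟩ := hEcard
        rw [hk, Nat.add_sub_cancel]
        push_cast
        have : (2 : ZMod 2) = 0 := by decide
        rw [this]
        ring
      · intro e he
        rw [mem_erase] at he
        have he' : e ∈ C.edgeSet := hCfin.mem_toFinset.1 he.2
        exact zmod_two_add (hχ e he' x y ⟨hG, hx, hy, fun h => he.1 h.symm⟩)
    calc ψ x = ψ x + (ψ y + ψ y) := by rw [zmod_two_self, add_zero]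
      _ = (ψ x + ψ y) + ψ y := by ring
      _ = ψ y := by rw [h1, zero_add]
  have hconst : ∀ x ∈ C.verts, ψ x = ψ u := by
    have key : ∀ {a b : V} (p : G.Walk a b), (∀ e ∈ p.edges, e ∈ C.edgeSet) →
        ∀ x ∈ p.support, ψ x = ψ a := by
      intro a b p
      induction p with
      | nil =>
        intro _ x hx
        simp only [Walk.support_nil, List.mem_singleton] at hx
        rw [hx]
      | @cons a c b h q ih =>
        intro hp x hx
        rw [Walk.edges_cons] at hp
        rw [Walk.support_cons, List.mem_cons] at hx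
        rcases hx with rfl | hx
        · rfl
        · rw [ih (fun e he => hp e (List.mem_cons_of_mem _ he)) x hx]
          exact (hon a c (hp _ List.mem_cons_self)).symm
    intro x hx
    refine key w ?_ x ?_
    · intro e he
      rw [← hwC, Walk.mem_edges_toSubgraph]
      exact he
    · rw [← hwC, Walk.mem_verts_toSubgraph] at hx
      exact hx
  refine ⟨fun v => ψ v - ψ u, fun x hx => ?_, fun x y hx hy hxy hC h => ?_⟩
  · simp only
    rw [hconst x hx, sub_self]
  · simp only [sub_left_inj] at h
    exact hoff x y hx hy hxy hC h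

end Pool.Agent.Lib_MP_079569_co
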