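import Mathlib
import Pool.Agent.Lib_MP_079569_co.Parity

/-!
Matchings as involutions.
-/

namespace Pool.Agent.Lib_MP_079569_co

open SimpleGraph Finset

variable {V : Type*} {G : SimpleGraph V}

/-- matchings as involutions -/
structure IsM (G : SimpleGraph V) (m : V → V) : Prop where
  inv : ∀ v, m (m v) = v
  adj : ∀ v, m v ≠ v → G.Adj v (m v)

theorem IsM.inj {m : V → V} (h : IsM G m) : Function.Injective m :=
  Function.Involutive.injective h.inv

/-- number of uncovered vertices -/
noncomputable def fx (m : V → V) : ℕ := {v | m v = v}.ncard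

/-- maximum matchings as involutions -/
structure IsMx (G : SimpleGraph V) (m : V → V) : Prop extends IsM G m where
  max : ∀ m', IsM G m' → fx m ≤ fx m'

open Classical in
/-- the move at an uncovered vertex `v` along the edge `v w` -/
noncomputable def flip (m : V → V) (v w : V) : V → V := fun x =>
  if x = v then w else if x = w then v else if x = m w then m w else m x

theorem IsM.flip_facts {m : V → V} (hm : IsM G m) {v w : V} (hv : m v = v) (hw : m w ≠ w)
    (hvw : v ≠ w) : v ≠ m w ∧ w ≠ m w ∧ flip m v w v = w ∧ flip m v w w = v ∧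
      flip m v w (m w) = m w ∧
      ∀ x, x ≠ v → x ≠ w → x ≠ m w → flip m v w x = m x := by
  have h1 : v ≠ m w := by
    intro h
    apply hvw
    rw [← hm.inv w, ← h, hv]
  refine ⟨h1, hw.symm, by simp [flip], by simp [flip, hvw.symm], ?_, ?_⟩
  · simp [flip, h1.symm, hw]
  · intro x a b c
    simp [flip, a, b, c]

theorem IsM.flip {m : V → V} (hm : IsM G m) {v w : V} (hv : m v = v) (hw : m w ≠ w)
    (hvw : G.Adj v w) : IsM G (flip m v w) := by
  obtain ⟨h1, h2, f1, f2, f3, f4⟩ := hm.flip_facts hv hw hvw.ne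
  have key : ∀ x, x = v ∨ x = w ∨ x = m w ∨ (x ≠ v ∧ x ≠ w ∧ x ≠ m w) := by
    intro x; tauto
  constructor
  · intro x
    rcases key x with rfl | rfl | rfl | ⟨a, b, c⟩
    · rw [f1, f2]
    · rw [f2, f1]
    · rw [f3, f3]
    · rw [f4 x a b c, f4 (m x), hm.inv]
      · intro h; apply a; rw [← hm.inv x, h, hv]
      · intro h; apply c; rw [← h, hm.inv]
      · intro h; exact b (hm.inj h)
  · intro x hx
    rcases key x with rfl | rfl | rfl | ⟨a, b, c⟩
    · rw [f1]; exact hvw
    · rw [f2]; exact hvw.symm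
    · exact absurd f3 hx
    · rw [f4 x a b c] at hx ⊢
      exact hm.adj x hx

variable [Fintype V]

theorem fx_flip {m : V → V} (hm : IsM G m) {v w : V} (hv : m v = v) (hw : m w ≠ w)
    (hvw : v ≠ w) : fx (flip m v w) = fx m := by
  classical
  obtain ⟨h1, h2, f1, f2, f3, f4⟩ := hm.flip_facts hv hw hvw
  have hset : {x | flip m v w x = x} = insert (m w) ({x | m x = x} \ {v}) := by
    ext x
    simp only [Set.mem_ofPred_eq, Set.mem_insert_iff, Set.mem_sdiff, Set.mem_singleton_iff]
    by_cases a : x = v
    · subst a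
      simp [f1, hvw.symm, h1]
    · by_cases b : x = w
      · subst b
        simp [f2, hvw, h2, hw]
      · by_cases c : x = m w
        · subst c
          simp [f3]
        · simp [f4 x a b c, a, c]
  unfold fx
  rw [hset, Set.ncard_insert_of_notMem, Set.ncard_sdiff_singleton_of_mem]
  · have : 0 < {x | m x = x}.ncard := by
      rw [Set.ncard_pos (Set.toFinite _)]
      exact ⟨v, hv⟩
    omega
  · exact hv
  · rintro ⟨h, -⟩
    have h' : m (m w) = m w := h
    rw [hm.inv] at h'
    exact h2 h'

theorem IsMx.covered {m : V → V} (hm : IsMx G m) {v w : V} (hv : m v = v) (hvw : G.Adj v w) :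
    m w ≠ w := by
  classical
  intro hw
  have hne := hvw.ne
  let m' : V → V := fun x => if x = v then w else if x = w then v else m x
  have f1 : m' v = w := by simp [m']
  have f2 : m' w = v := by simp [m', hne.symm]
  have f3 : ∀ x, x ≠ v → x ≠ w → m' x = m x := fun x a b => by simp [m', a, b]
  have hm' : IsM G m' := by
    constructor
    · intro x
      by_cases a : x = v
      · subst a; rw [f1, f2]
      · by_cases b : x = w
        · subst b; rw [f2, f1]
        · rw [f3 x a b, f3 (m x), hm.inv]
          · intro h; apply a; rw [← hm.inv x, h, hv]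
          · intro h; apply b; rw [← hm.inv x, h, hw]
    · intro x hx
      by_cases a : x = v
      · subst a; rw [f1]; exact hvw
      · by_cases b : x = w
        · subst b; rw [f2]; exact hvw.symm
        · rw [f3 x a b] at hx ⊢
          exact hm.adj x hx
  have hlt : fx m' < fx m := by
    unfold fx
    refine Set.ncard_lt_ncard ⟨?_, ?_⟩ (Set.toFinite _)
    · intro x hx
      have hx' : m' x = x := hx
      by_cases a : x = v
      · subst a; rw [f1] at hx'; exact absurd hx'.symm hne
      · by_cases b : x = w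
        · subst b; rw [f2] at hx'; exact absurd hx' hne
        · rw [f3 x a b] at hx'
          exact hx'
    · intro h
      have : m' v = v := h hv
      rw [f1] at this
      exact hne this.symm
  exact absurd (hm.max m' hm') (not_le.2 hlt)

theorem IsMx.flip {m : V → V} (hm : IsMx G m) {v w : V} (hv : m v = v) (hvw : G.Adj v w) :
    IsMx G (flip m v w) := by
  have hw := hm.covered hv hvw
  refine ⟨hm.toIsM.flip hv hw hvw, fun m' hm' => ?_⟩
  rw [fx_flip hm.toIsM hv hw hvw.ne]
  exact hm.max m' hm'

/-- doubling -/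
theorem ncard_double {m : V → V} (hinv : ∀ v, m (m v) = v) (S : Set V) (hS : ∀ v ∈ S, m v ∈ S)
    (hne : ∀ v ∈ S, m v ≠ v) : S.ncard = 2 * ((fun v => s(v, m v)) '' S).ncard := by
  classical
  have hfin : S.Finite := Set.toFinite _
  obtain ⟨T, rfl⟩ := hfin.exists_finset_coe
  rw [← Finset.coe_image, Set.ncard_coe_finset, Set.ncard_coe_finset]
  rw [card_eq_sum_card_image (fun v => s(v, m v)) T, mul_comm, ← smul_eq_mul, ← sum_const]
  refine sum_congr rfl fun e he => ?_
  obtain ⟨v, hv, rfl⟩ := mem_image.1 he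
  have hv' : v ∈ (T : Set V) := hv
  have : T.filter (fun x => s(x, m x) = s(v, m v)) = {v, m v} := by
    ext x
    simp only [mem_filter, mem_insert, mem_singleton]
    constructor
    · rintro ⟨-, h⟩
      rcases Sym2.eq_iff.1 h with ⟨h1, -⟩ | ⟨h1, -⟩
      · exact Or.inl h1
      · exact Or.inr h1
    · rintro (rfl | rfl)
      · exact ⟨hv, rfl⟩
      · refine ⟨hS v hv', ?_⟩
        rw [hinv]
        exact Sym2.eq_swap
  rw [this, card_pair (hne v hv').symm]

/-- the two descriptions of a matching -/
structure Corr (M : G.Subgraph) (m : V → V) : Prop where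
  adj : ∀ v w, M.Adj v w ↔ m v = w ∧ v ≠ w
  verts : ∀ v, v ∈ M.verts ↔ m v ≠ v

omit [Fintype V] in
theorem Corr.isMatching {M : G.Subgraph} {m : V → V} (h : Corr M m) : M.IsMatching := by
  intro v hv
  refine ⟨m v, (h.adj v _).2 ⟨rfl, ((h.verts v).1 hv).symm⟩, fun w hw => ?_⟩
  exact ((h.adj v w).1 hw).1.symm

omit [Fintype V] in
theorem exists_corr {M : G.Subgraph} (hM : M.IsMatching) : ∃ m : V → V, IsM G m ∧ Corr M m := by
  classical
  let m : V → V := fun v => if h : v ∈ M.verts then (hM h).choose else v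
  have h1 : ∀ v ∈ M.verts, M.Adj v (m v) := by
    intro v hv
    simp only [m, dif_pos hv]
    exact (hM hv).choose_spec.1
  have h2 : ∀ v, v ∉ M.verts → m v = v := fun v hv => by simp only [m, dif_neg hv]
  have h3 : ∀ v w, M.Adj v w → m v = w := fun v w hvw =>
    hM.eq_of_adj_left (h1 v (M.edge_vert hvw)) hvw
  refine ⟨m, ⟨?_, ?_⟩, ?_, ?_⟩
  · intro v
    by_cases hv : v ∈ M.verts
    · exact h3 _ _ (h1 v hv).symm
    · rw [h2 v hv, h2 v hv]
  · intro v hv
    by_cases hv' : v ∈ M.verts
    · exact (h1 v hv').adj_sub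
    · exact absurd (h2 v hv') hv
  · intro v w
    constructor
    · intro h
      exact ⟨h3 v w h, h.adj_sub.ne⟩
    · rintro ⟨h, hne⟩
      by_cases hv : v ∈ M.verts
      · rw [← h]; exact h1 v hv
      · exact absurd ((h2 v hv).symm.trans h) hne
  · intro v
    constructor
    · intro hv h
      have := (h1 v hv).adj_sub.ne
      exact this h.symm
    · intro hv
      by_contra h
      exact hv (h2 v h)

/-- the subgraph of a matching involution -/
def ofInv (m : V → V) (hm : IsM G m) : G.Subgraph where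
  verts := {v | m v ≠ v}
  Adj v w := m v = w ∧ v ≠ w
  adj_sub := by
    rintro v w ⟨rfl, h⟩
    exact hm.adj v h.symm
  edge_vert := by
    rintro v w ⟨rfl, h⟩
    exact h.symm
  symm := ⟨by
    rintro v w ⟨rfl, h⟩
    exact ⟨hm.inv v, h.symm⟩⟩

omit [Fintype V] in
theorem corr_ofInv {m : V → V} (hm : IsM G m) : Corr (ofInv m hm) m :=
  ⟨fun _ _ => Iff.rfl, fun _ => Iff.rfl⟩

omit [Fintype V] in
theorem Corr.edgeSet {M : G.Subgraph} {m : V → V} (h : Corr M m) :
    M.edgeSet = (fun v => s(v, m v)) '' {v | m v ≠ v} := by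
  ext e
  induction e using Sym2.ind with
  | _ x y =>
    rw [Subgraph.mem_edgeSet, h.adj]
    constructor
    · rintro ⟨rfl, hne⟩
      exact ⟨x, hne.symm, rfl⟩
    · rintro ⟨v, hv, hvxy⟩
      have hv' : m v ≠ v := hv
      rcases Sym2.eq_iff.1 hvxy with ⟨rfl, rfl⟩ | ⟨rfl, rfl⟩
      · exact ⟨rfl, hv'.symm⟩
      · have hadj : M.Adj v (m v) := (h.adj v (m v)).2 ⟨rfl, hv'.symm⟩
        exact (h.adj _ _).1 hadj.symm

theorem Corr.card {M : G.Subgraph} {m : V → V} (hm : IsM G m) (h : Corr M m) :
    2 * M.edgeSet.ncard + fx m = Fintype.card V := by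
  classical
  rw [h.edgeSet, ← ncard_double hm.inv]
  · unfold fx
    have : {v | m v = v} = {v | m v ≠ v}ᶜ := by
      ext v; simp
    rw [this, Set.ncard_add_ncard_compl, Nat.card_eq_fintype_card]
  · intro v hv h'
    have hv' : m v ≠ v := hv
    rw [hm.inv] at h'
    exact hv' h'.symm
  · intro v hv
    exact hv

theorem Corr.isMax_iff {M : G.Subgraph} {m : V → V} (hm : IsM G m) (h : Corr M m) :
    IsMaxMatching G M ↔ IsMx G m := by
  constructor
  · intro hM
    refine ⟨hm, fun m' hm' => ?_⟩
    have h1 := hM.2 (ofInv m' hm') (corr_ofInv hm').isMatching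
    have h2 := h.card hm
    have h3 := (corr_ofInv hm').card hm'
    omega
  · intro hM
    refine ⟨h.isMatching, fun M' hM' => ?_⟩
    obtain ⟨m', hm', hc⟩ := exists_corr hM'
    have h1 := hM.max m' hm'
    have h2 := h.card hm
    have h3 := hc.card hm'
    omega

end Pool.Agent.Lib_MP_079569_co
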