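import Mathlib
import Pool.Agent.Lib_MP_079569_co.Inv

/-!
Blossoms and stems in terms of involutions.
-/

namespace Pool.Agent.Lib_MP_079569_co

open SimpleGraph Finset

variable {V : Type*} {G : SimpleGraph V}

/-- `C` is a blossom with base `b` -/
structure Bl (C : G.Subgraph) (m : V → V) (b : V) : Prop where
  mem : b ∈ C.verts
  adj : ∀ v ∈ C.verts, v ≠ b → C.Adj v (m v)
  base : ¬ C.Adj b (m b)

theorem isBlossom_iff [Fintype V] {M C : G.Subgraph} {m : V → V} {b : V} (hm : IsM G m)
    (hc : Corr M m) (hC : IsOddCycle G C) : IsBlossom M C b ↔ Bl C m b := by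
  classical
  set S : Set V := {v | C.Adj v (m v)} with hS
  have hSne : ∀ v ∈ S, m v ≠ v := fun v hv => by
    have hv' : C.Adj v (m v) := hv
    exact hv'.adj_sub.ne.symm
  have hScl : ∀ v ∈ S, m v ∈ S := fun v hv => by
    have hv' : C.Adj v (m v) := hv
    change C.Adj (m v) (m (m v))
    rw [hm.inv]
    exact hv'.symm
  have hedge : C.edgeSet ∩ M.edgeSet = (fun v => s(v, m v)) '' S := by
    ext e
    rw [Set.mem_inter_iff, hc.edgeSet]
    constructor
    · rintro ⟨h1, v, hv, rfl⟩
      exact ⟨v, h1, rfl⟩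
    · rintro ⟨v, hv, rfl⟩
      exact ⟨hv, v, hSne v hv, rfl⟩
  have hcard : S.ncard = 2 * (C.edgeSet ∩ M.edgeSet).ncard := by
    rw [hedge]
    exact ncard_double hm.inv S hScl hSne
  have hSC : S ⊆ C.verts := fun v hv => C.edge_vert hv
  constructor
  · intro h
    have hb : b ∉ S := by
      intro hb
      refine h.base_free s(b, m b) ?_ (Sym2.mem_mk_left _ _)
      rw [hedge]
      exact ⟨b, hb, rfl⟩
    have hsub : S ⊆ C.verts \ {b} := fun v hv => ⟨hSC hv, fun hvb => hb (hvb ▸ hv)⟩
    have heq : S = C.verts \ {b} := by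
      refine Set.eq_of_subset_of_ncard_le hsub ?_ (Set.toFinite _)
      rw [Set.ncard_sdiff_singleton_of_mem h.base_mem, h.card_verts, hcard]
      omega
    exact ⟨h.base_mem, fun v hv hne => by
      have : v ∈ S := by rw [heq]; exact ⟨hv, hne⟩
      exact this, hb⟩
  · intro h
    have heq : S = C.verts \ {b} := by
      ext v
      constructor
      · intro hv
        exact ⟨hSC hv, fun hvb => h.base (by rw [← hvb]; exact hv)⟩
      · rintro ⟨h1, h2⟩
        exact h.adj v h1 h2
    refine ⟨hC, ?_, h.mem, ?_⟩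
    · rw [← hcard, heq, Set.ncard_sdiff_singleton_of_mem h.mem]
      have : 0 < C.verts.ncard := (Set.ncard_pos (Set.toFinite _)).2 ⟨b, h.mem⟩
      omega
    · intro e he hbe
      rw [hedge] at he
      obtain ⟨v, hv, rfl⟩ := he
      have hv' : C.Adj v (m v) := hv
      rw [Sym2.mem_iff] at hbe
      rcases hbe with rfl | rfl
      · exact h.base hv'
      · apply h.base
        rw [hm.inv]
        exact hv'.symm

/-- stems, read from the uncovered end -/
def StemR (m : V → V) : {u b : V} → G.Walk u b → Prop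
  | _, _, .nil => True
  | _, _, .cons _ .nil => False
  | _, _, .cons (v := x) _ (.cons (v := y) _ P) => m x = y ∧ StemR m P

theorem StemR.congr {m m' : V → V} : ∀ {u b : V} (P : G.Walk u b),
    (∀ x ∈ P.support.tail, m x = m' x) → StemR m P → StemR m' P
  | _, _, .nil => fun _ _ => trivial
  | _, _, .cons _ .nil => fun _ h => h
  | _, _, .cons (v := x) _ (.cons (v := y) _ P) => fun h hs => by
      simp only [Walk.support_cons, List.tail_cons, List.mem_cons] at h
      refine ⟨?_, StemR.congr P (fun z hz => h z (Or.inr ?_)) hs.2⟩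
      · rw [← h x (Or.inl rfl)]; exact hs.1
      · exact List.mem_of_mem_tail hz

theorem StemR.even {m : V → V} : ∀ {u b : V} (P : G.Walk u b), StemR m P → Even P.length
  | _, _, .nil => fun _ => by simp
  | _, _, .cons _ .nil => fun h => h.elim
  | _, _, .cons _ (.cons _ P) => fun hs => by
      have := StemR.even P hs.2
      simp only [Walk.length_cons]
      rw [Nat.even_iff] at this ⊢
      omega

/-- from `StemR` to alternating chains -/
theorem StemR.chain {M : G.Subgraph} {m : V → V} (hm : IsM G m) (hc : Corr M m) :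
    ∀ {u b : V} (P : G.Walk u b), P.IsPath → m u ∉ P.support.tail → StemR m P →
      P.edges.IsChain (fun e f => e ∈ M.edgeSet ↔ f ∉ M.edgeSet) ∧
        ∀ e ∈ P.edges.head?, e ∉ M.edgeSet
  | _, _, .nil => fun _ _ _ => by simp
  | _, _, .cons _ .nil => fun _ _ h => h.elim
  | u, _, .cons (v := x) h1 (.cons (v := y) h2 P) => fun hp hu hs => by
      simp only [Walk.cons_isPath_iff, Walk.support_cons, List.mem_cons, not_or] at hp
      obtain ⟨⟨hP, hx⟩, hux, hu'⟩ := hp
      simp only [Walk.support_cons, List.tail_cons, List.mem_cons, not_or] at hu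
      have hxy : m x = y := hs.1
      have hyx : m y = x := by rw [← hxy, hm.inv]
      have hnot : m y ∉ P.support.tail := fun h => hx (by
        rw [hyx] at h; exact List.mem_of_mem_tail h)
      have ih := StemR.chain hm hc P hP hnot hs.2
      have e1 : s(u, x) ∉ M.edgeSet := by
        intro h
        rw [Subgraph.mem_edgeSet, hc.adj] at h
        exact hu.1 h.1
      have e2 : s(x, y) ∈ M.edgeSet := by
        rw [Subgraph.mem_edgeSet, hc.adj]
        exact ⟨hxy, h2.ne⟩
      constructor
      · rw [Walk.edges_cons, Walk.edges_cons]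
        rw [List.isChain_cons_cons]
        refine ⟨⟨fun h => absurd h e1, fun h => absurd e2 h⟩, ?_⟩
        rw [List.isChain_cons]
        refine ⟨fun f hf => ⟨fun _ => ih.2 f hf, fun _ => e2⟩, ih.1⟩
      · intro e he
        simp only [Walk.edges_cons, List.head?_cons, Option.mem_def, Option.some.injEq] at he
        rw [← he]
        exact e1

/-- from alternating chains to `StemR` -/
theorem StemR.of_chain {M : G.Subgraph} {m : V → V} (hc : Corr M m) :
    ∀ {u b : V} (P : G.Walk u b), Even P.length →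
      P.edges.IsChain (fun e f => e ∈ M.edgeSet ↔ f ∉ M.edgeSet) →
        (∀ e ∈ P.edges.head?, e ∉ M.edgeSet) → StemR m P
  | _, _, .nil => fun _ _ _ => trivial
  | _, _, .cons _ .nil => fun h _ _ => by
      simp only [Walk.length_cons, Walk.length_nil] at h
      exact absurd h (by decide)
  | u, _, .cons (v := x) h1 (.cons (v := y) h2 P) => fun he hch hhd => by
      rw [Walk.edges_cons, Walk.edges_cons, List.isChain_cons_cons] at hch
      obtain ⟨hch1, hch2⟩ := hch
      rw [List.isChain_cons] at hch2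
      have e1 : s(u, x) ∉ M.edgeSet := hhd _ (by simp)
      have e2 : s(x, y) ∈ M.edgeSet := by
        by_contra h
        exact e1 (hch1.2 h)
      refine ⟨((hc.adj x y).1 e2).1, StemR.of_chain hc P ?_ hch2.2 ?_⟩
      · simp only [Walk.length_cons] at he
        rw [Nat.even_iff] at he ⊢
        omega
      · intro f hf
        exact (hch2.1 f hf).1 e2

/-- reference near perfect matching of `C` -/
structure Ref (C : G.Subgraph) (κ : V → V) (b : V) : Prop where
  mem : b ∈ C.verts
  inv : ∀ x, κ (κ x) = x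
  off : ∀ x, x ∉ C.verts → κ x = x
  base : κ b = b
  adj : ∀ x ∈ C.verts, x ≠ b → C.Adj x (κ x)

theorem IsOddCycle.exists_ref {C : G.Subgraph} (hC : IsOddCycle G C) {b : V} (hb : b ∈ C.verts) :
    ∃ κ, Ref C κ b := by
  obtain ⟨κ, k1, k2, k3, k4⟩ := hC.exists_match hb
  exact ⟨κ, hb, k1, k2, k3, k4⟩

theorem Ref.maps {C : G.Subgraph} {κ : V → V} {b : V} (h : Ref C κ b) {x : V} (hx : x ∈ C.verts) :
    κ x ∈ C.verts := by
  by_cases hxb : x = b
  · subst hxb; rw [h.base]; exact hx
  · exact C.edge_vert (h.adj x hx hxb).symm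

/-- `m` matches `C` inside itself, up to one uncovered vertex -/
def Nice (C : G.Subgraph) (m : V → V) : Prop := ∃ κ b, Ref C κ b ∧ ∀ x ∈ C.verts, m x = κ x

theorem Nice.maps {C : G.Subgraph} {m : V → V} (h : Nice C m) {x : V} (hx : x ∈ C.verts) :
    m x ∈ C.verts := by
  obtain ⟨κ, b, h1, h2⟩ := h
  rw [h2 x hx]
  exact h1.maps hx

theorem Nice.maps_not {C : G.Subgraph} {m : V → V} (hm : IsM G m) (h : Nice C m) {x : V}
    (hx : x ∉ C.verts) : m x ∉ C.verts := by
  intro h'
  apply hx
  rw [← hm.inv x]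
  exact h.maps h'

theorem Bl.nice {C : G.Subgraph} {m : V → V} (hm : IsM G m) {b : V} (h : Bl C m b) (hb : m b = b) :
    Nice C m := by
  classical
  have hmaps : ∀ x ∈ C.verts, m x ∈ C.verts := by
    intro x hx
    by_cases hxb : x = b
    · subst hxb; rw [hb]; exact hx
    · exact C.edge_vert (h.adj x hx hxb).symm
  refine ⟨fun x => if x ∈ C.verts then m x else x, b, ⟨h.mem, ?_, ?_, ?_, ?_⟩, ?_⟩
  · intro x
    by_cases hx : x ∈ C.verts
    · simp [hx, hmaps x hx, hm.inv]
    · simp [hx]
  · intro x hx; simp [hx]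
  · simp [h.mem, hb]
  · intro x hx hxb
    simp only [hx, if_true]
    exact h.adj x hx hxb
  · intro x hx; simp [hx]

open Classical in
/-- replace `m` by `κ` on `C` -/
noncomputable def rot (C : G.Subgraph) (κ m : V → V) : V → V :=
  fun x => if x ∈ C.verts then κ x else m x

theorem rot_on {C : G.Subgraph} {κ m : V → V} {x : V} (hx : x ∈ C.verts) : rot C κ m x = κ x := by
  simp [rot, hx]

theorem rot_off {C : G.Subgraph} {κ m : V → V} {x : V} (hx : x ∉ C.verts) : rot C κ m x = m x := by
  simp [rot, hx]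

theorem isM_rot {C : G.Subgraph} {m κ : V → V} {b : V} (hm : IsM G m) (h : Nice C m)
    (hκ : Ref C κ b) : IsM G (rot C κ m) := by
  constructor
  · intro x
    by_cases hx : x ∈ C.verts
    · rw [rot_on hx, rot_on (hκ.maps hx), hκ.inv]
    · rw [rot_off hx, rot_off (h.maps_not hm hx), hm.inv]
  · intro x hne
    by_cases hx : x ∈ C.verts
    · rw [rot_on hx] at hne ⊢
      refine (hκ.adj x hx ?_).adj_sub
      rintro rfl
      exact hne hκ.base
    · rw [rot_off hx] at hne ⊢
      exact hm.adj x hne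

theorem fx_eq_of_ref [Fintype V] {C : G.Subgraph} {m κ : V → V} {b : V} (hκ : Ref C κ b)
    (h : ∀ x ∈ C.verts, m x = κ x) : fx m = {x | x ∉ C.verts ∧ m x = x}.ncard + 1 := by
  classical
  unfold fx
  have : {v | m v = v} = insert b {x | x ∉ C.verts ∧ m x = x} := by
    ext x
    simp only [Set.mem_ofPred_eq, Set.mem_insert_iff]
    constructor
    · intro hx
      by_cases hxC : x ∈ C.verts
      · left
        by_contra hne
        have := (hκ.adj x hxC hne).adj_sub.ne
        rw [← h x hxC, hx] at this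
        exact this rfl
      · exact Or.inr ⟨hxC, hx⟩
    · rintro (rfl | ⟨-, hx⟩)
      · rw [h x hκ.mem, hκ.base]
      · exact hx
  rw [this, Set.ncard_insert_of_notMem]
  rintro ⟨h1, -⟩
  exact h1 hκ.mem

theorem isMx_rot [Fintype V] {C : G.Subgraph} {m κ : V → V} {b : V} (hm : IsMx G m) (h : Nice C m)
    (hκ : Ref C κ b) : IsMx G (rot C κ m) := by
  refine ⟨isM_rot hm.toIsM h hκ, fun m' hm' => ?_⟩
  refine le_trans (le_of_eq ?_) (hm.max m' hm')
  obtain ⟨κ', b', hκ', h'⟩ := h
  rw [fx_eq_of_ref hκ (fun x hx => rot_on hx), fx_eq_of_ref hκ' h']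
  congr 2
  ext x
  simp only [Set.mem_ofPred_eq]
  refine and_congr_right fun hx => ?_
  rw [rot_off hx]

/-- fresh alternating reachability from `C` -/
inductive Alt (C : G.Subgraph) (m : V → V) : V → Set V → Prop
  | base {v : V} : v ∈ C.verts → Alt C m v C.verts
  | step {v w : V} {F : Set V} : Alt C m v F → G.Adj v w → w ∉ F →
      Alt C m (m w) (insert w (insert (m w) F))

theorem Alt.facts {C : G.Subgraph} {m : V → V} (hm : IsM G m) (hn : Nice C m) {v : V} {F : Set V}
    (h : Alt C m v F) : v ∈ F ∧ C.verts ⊆ F ∧ ∀ x ∈ F, m x ∈ F := by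
  induction h with
  | base hv => exact ⟨hv, subset_rfl, fun x hx => hn.maps hx⟩
  | @step v w F _ _ _ ih =>
    obtain ⟨h1, h2, h3⟩ := ih
    refine ⟨by simp, fun x hx => by simp [h2 hx], fun x hx => ?_⟩
    rcases hx with rfl | rfl | hx
    · simp
    · rw [hm.inv]; simp
    · right; right; exact h3 x hx

/-- every fresh alternating reachable vertex lies in a flower -/
theorem Alt.flower [Fintype V] {C : G.Subgraph} (hC : IsOddCycle G C) {m : V → V} (hm : IsMx G m)
    (hn : Nice C m) {v : V} {F : Set V} (h : Alt C m v F) :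
    ∃ (m' : V → V) (b : V) (P : G.Walk v b), IsMx G m' ∧ m' v = v ∧ (∀ x, x ∉ F → m' x = m x) ∧
      Bl C m' b ∧ P.IsPath ∧ StemR m' P ∧ (∀ x ∈ P.support, x ∈ C.verts → x = b) ∧
      F = C.verts ∪ {x | x ∈ P.support} := by
  induction h with
  | @base v hv =>
    obtain ⟨κ, hκ⟩ := hC.exists_ref hv
    refine ⟨rot C κ m, v, Walk.nil, isMx_rot hm hn hκ, ?_, fun x hx => rot_off hx, ?_,
      Walk.IsPath.nil, trivial, ?_, ?_⟩
    · rw [rot_on hv, hκ.base]
    · refine ⟨hv, fun x hx hne => ?_, ?_⟩
      · rw [rot_on hx]; exact hκ.adj x hx hne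
      · rw [rot_on hv, hκ.base]
        exact fun h => h.adj_sub.ne rfl
    · intro x hx _
      simpa using hx
    · ext x
      simp only [Walk.support_nil, List.mem_singleton, Set.mem_union, Set.mem_ofPred_eq]
      constructor
      · exact fun h => Or.inl h
      · rintro (h | rfl)
        · exact h
        · exact hv
  | @step v w F hA hvw hwF ih =>
    obtain ⟨m', b, P, hm', hv, hoff, hbl, hP, hst, hint, hF⟩ := ih
    obtain ⟨f1, f2, f3⟩ := Alt.facts hm.toIsM hn hA
    have hmw : m' w = m w := hoff w hwF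
    have hcov : m' w ≠ w := hm'.covered hv hvw
    obtain ⟨g1, g2, g3, g4, g5, g6⟩ := hm'.toIsM.flip_facts hv hcov hvw.ne
    have hmwF : m w ∉ F := by
      intro h
      apply hwF
      rw [← hm.inv w]
      exact f3 _ h
    have hPF : ∀ x ∈ P.support, x ∈ F := fun x hx => by rw [hF]; exact Or.inr hx
    have hCF : ∀ x ∈ C.verts, x ∈ F := fun x hx => f2 hx
    have hbF : b ∈ F := hPF b P.end_mem_support
    rw [hmw] at g1 g2 g5 g6 hcov
    have hadj : G.Adj (m w) w := (hm.adj w hcov).symm
    refine ⟨flip m' v w, b, Walk.cons hadj (Walk.cons hvw.symm P), hm'.flip hv hvw, g5, ?_, ?_, ?_,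
      ⟨g4, ?_⟩, ?_, ?_⟩
    · intro x hx
      simp only [Set.mem_insert_iff, not_or] at hx
      rw [g6 x (fun h => hx.2.2 (h ▸ f1)) hx.1 hx.2.1]
      exact hoff x hx.2.2
    · refine ⟨hbl.mem, fun x hx hne => ?_, ?_⟩
      · have hxv : x ≠ v := by
          rintro rfl
          exact (hbl.adj x hx hne).adj_sub.ne hv.symm
        rw [g6 x hxv (fun h => hwF (h ▸ hCF x hx)) (fun h => hmwF (h ▸ hCF x hx))]
        exact hbl.adj x hx hne
      · by_cases hbv : b = v
        · intro h
          rw [hbv, g3] at h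
          exact hwF (hCF w (C.edge_vert h.symm))
        · rw [g6 b hbv (fun h => hwF (h ▸ hbF)) (fun h => hmwF (h ▸ hbF))]
          exact hbl.base
    · rw [Walk.cons_isPath_iff, Walk.cons_isPath_iff]
      refine ⟨⟨hP, fun h => hwF (hPF w h)⟩, ?_⟩
      rw [Walk.support_cons, List.mem_cons, not_or]
      exact ⟨hcov, fun h => hmwF (hPF _ h)⟩
    · refine StemR.congr P (fun x hx => ?_) hst
      have hxP : x ∈ P.support := List.mem_of_mem_tail hx
      have hxv : x ≠ v := by
        rintro rfl
        have hnd := hP.support_nodup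
        rw [← Walk.cons_tail_support] at hnd
        exact (List.nodup_cons.1 hnd).1 hx
      exact (g6 x hxv (fun h => hwF (h ▸ hPF x hxP)) (fun h => hmwF (h ▸ hPF x hxP))).symm
    · intro x hx hxC
      rw [Walk.support_cons, Walk.support_cons, List.mem_cons, List.mem_cons] at hx
      rcases hx with rfl | rfl | hx
      · exact absurd (hCF _ hxC) hmwF
      · exact absurd (hCF _ hxC) hwF
      · exact hint x hx hxC
    · rw [hF]
      ext x
      simp only [Set.mem_insert_iff, Set.mem_union, Set.mem_ofPred_eq, Walk.support_cons,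
        List.mem_cons]
      tauto

end Pool.Agent.Lib_MP_079569_co
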