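import Mathlib
import Pool.Agent.Lib_MP_079569_co.Flower

/-!
The structure of the reach sets.
-/

namespace Pool.Agent.Lib_MP_079569_co

open SimpleGraph Finset

variable {V : Type*} {G : SimpleGraph V}

/-- `Nice` maximum matchings -/
structure NMx (C : G.Subgraph) (m : V → V) : Prop extends IsMx G m where
  nice : Nice C m

/-- alternating reachability from `C` (walks) -/
inductive Ev (C : G.Subgraph) (m : V → V) : V → Prop
  | base {v : V} : v ∈ C.verts → Ev C m v
  | step {v w : V} : Ev C m v → G.Adj v w → w ∉ C.verts → Ev C m (m w)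

theorem Alt.ev {C : G.Subgraph} {m : V → V} (hm : IsM G m) (hn : Nice C m) {v : V} {F : Set V}
    (h : Alt C m v F) : Ev C m v := by
  induction h with
  | base hv => exact Ev.base hv
  | @step v w F h1 h2 h3 ih => exact Ev.step ih h2 fun h => h3 ((Alt.facts hm hn h1).2.1 h)

variable [Fintype V]

theorem Alt.subset_reach {C : G.Subgraph} (hC : IsOddCycle G C) {m : V → V} (hm : NMx C m)
    {v : V} {F : Set V} (h : Alt C m v F) : F ⊆ reach G C := by
  obtain ⟨m', b, P, hm', hv, hoff, hbl, hP, hst, hint, hF⟩ := h.flower hC hm.toIsMx hm.nice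
  have hc := corr_ofInv hm'.toIsM
  have hmax : IsMaxMatching G (ofInv m' hm'.toIsM) := (hc.isMax_iff hm'.toIsM).2 hm'
  have hch := StemR.chain hm'.toIsM hc P hP (by
    rw [hv]
    intro h
    have hnd := hP.support_nodup
    rw [← Walk.cons_tail_support] at hnd
    exact (List.nodup_cons.1 hnd).1 h) hst
  have hstem : IsStem (ofInv m' hm'.toIsM) C P :=
    ⟨hP, hst.even P, hch.1, fun h => ((hc.verts v).1 h) hv, hint⟩
  intro x hx
  rw [hF] at hx
  exact ⟨_, hmax, v, b, P, (isBlossom_iff hm'.toIsM hc hC).2 hbl, hstem, hx⟩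

/-- the hypotheses on `C` that we use -/
structure Good (C : G.Subgraph) : Prop where
  isOddCycle : IsOddCycle G C
  nonempty : (reach G C).Nonempty
  unique : ∀ C' : G.Subgraph, IsOddCycle G C' → C'.verts ⊆ reach G C → C' = C

omit [Fintype V] in
theorem verts_subset_reach {C : G.Subgraph} (h : (reach G C).Nonempty) :
    C.verts ⊆ reach G C := by
  obtain ⟨x, M, hM, u, b, P, hB, hS, -⟩ := h
  exact fun y hy => ⟨M, hM, u, b, P, hB, hS, Or.inl hy⟩

omit [Fintype V] in
theorem RDisjoint.good (h : RDisjoint G) {C : G.Subgraph} (hC : IsOddCycle G C) : Good C := by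
  refine ⟨hC, h.reach_nonempty C hC, fun C' hC' hsub => ?_⟩
  by_contra hne
  obtain ⟨x, hx⟩ := hC'.nonempty
  exact Set.disjoint_left.1 (h.disjoint C' C hC' hC hne)
    (verts_subset_reach (h.reach_nonempty C' hC') hx) (hsub hx)

/-- the parity function of `C` -/
structure Par (C : G.Subgraph) (ψ : V → ZMod 2) : Prop where
  zero : ∀ x ∈ C.verts, ψ x = 0
  ne : ∀ x y, x ∈ reach G C → y ∈ reach G C → G.Adj x y → ¬ C.Adj x y → ψ x ≠ ψ y

theorem Good.exists_par {C : G.Subgraph} (h : Good C) : ∃ ψ : V → ZMod 2, Par C ψ := by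
  obtain ⟨ψ, h1, h2⟩ := exists_parity h.isOddCycle (verts_subset_reach h.nonempty) h.unique
  exact ⟨ψ, h1, h2⟩

theorem zmod_two_ne_zero {a : ZMod 2} : a ≠ 0 ↔ a = 1 := by
  revert a; decide

theorem zmod_two_ne_one {a : ZMod 2} : a ≠ 1 ↔ a = 0 := by
  revert a; decide

theorem Alt.parity {C : G.Subgraph} (hC : Good C) {ψ : V → ZMod 2} (hψ : Par C ψ) {m : V → V}
    (hm : NMx C m) {v : V} {F : Set V} (h : Alt C m v F) :
    ψ v = 0 ∧ ∀ x ∈ F, (ψ x = 0 ∧ ∃ F', Alt C m x F') ∨
      (ψ x = 1 ∧ x ∉ C.verts ∧ ∃ F', Alt C m (m x) F') := by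
  induction h with
  | @base v hv => exact ⟨hψ.zero v hv, fun x hx => Or.inl ⟨hψ.zero x hx, _, Alt.base hx⟩⟩
  | @step v w F hA hvw hwF ih =>
    obtain ⟨ih1, ih2⟩ := ih
    have hA' : Alt C m (m w) (insert w (insert (m w) F)) := Alt.step hA hvw hwF
    have hsub := hA'.subset_reach hC.isOddCycle hm
    obtain ⟨f1, f2, f3⟩ := Alt.facts hm.toIsM hm.nice hA
    obtain ⟨m', -, -, hm', hv, hoff, -⟩ := hA.flower hC.isOddCycle hm.toIsMx hm.nice
    have hcov : m w ≠ w := by
      rw [← hoff w hwF]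
      exact hm'.covered hv hvw
    have hvR : v ∈ reach G C := hsub (by simp [f1])
    have hwR : w ∈ reach G C := hsub (by simp)
    have hmwR : m w ∈ reach G C := hsub (by simp)
    have hwC : w ∉ C.verts := fun h => hwF (f2 h)
    have h1 : ψ w = 1 := by
      rw [← zmod_two_ne_zero, ← ih1]
      exact (hψ.ne v w hvR hwR hvw fun h => hwC (C.edge_vert h.symm)).symm
    have h2 : ψ (m w) = 0 := by
      rw [← zmod_two_ne_one, ← h1]
      exact (hψ.ne w (m w) hwR hmwR (hm.adj w hcov) fun h => hwC (C.edge_vert h)).symm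
    refine ⟨h2, fun x hx => ?_⟩
    rcases hx with rfl | rfl | hx
    · exact Or.inr ⟨h1, hwC, _, hA'⟩
    · exact Or.inl ⟨h2, _, hA'⟩
    · exact ih2 x hx

theorem Alt.closure {C : G.Subgraph} (hC : Good C) {ψ : V → ZMod 2} (hψ : Par C ψ) {m : V → V}
    (hm : NMx C m) {v : V} {F : Set V} (h : Alt C m v F) {w : V} (hvw : G.Adj v w)
    (hwC : w ∉ C.verts) :
    (∃ F', Alt C m (m w) F') ∧ w ∈ reach G C ∧ ψ w = 1 := by
  obtain ⟨f1, f2, f3⟩ := Alt.facts hm.toIsM hm.nice h
  obtain ⟨p1, p2⟩ := h.parity hC hψ hm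
  by_cases hwF : w ∈ F
  · have hsub := h.subset_reach hC.isOddCycle hm
    have h1 : ψ w = 1 := by
      rw [← zmod_two_ne_zero, ← p1]
      exact (hψ.ne v w (hsub f1) (hsub hwF) hvw fun h => hwC (C.edge_vert h.symm)).symm
    rcases p2 w hwF with ⟨h2, -⟩ | ⟨-, -, h3⟩
    · rw [h1] at h2
      exact absurd h2 one_ne_zero
    · exact ⟨h3, hsub hwF, h1⟩
  · have hA' : Alt C m (m w) (insert w (insert (m w) F)) := Alt.step h hvw hwF
    have hsub := hA'.subset_reach hC.isOddCycle hm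
    have hwR : w ∈ reach G C := hsub (by simp)
    have hvR : v ∈ reach G C := hsub (by simp [f1])
    refine ⟨⟨_, hA'⟩, hwR, ?_⟩
    rw [← zmod_two_ne_zero, ← p1]
    exact (hψ.ne v w hvR hwR hvw fun h => hwC (C.edge_vert h.symm)).symm

theorem Ev.alt {C : G.Subgraph} (hC : Good C) {ψ : V → ZMod 2} (hψ : Par C ψ) {m : V → V}
    (hm : NMx C m) {v : V} (h : Ev C m v) : ∃ F, Alt C m v F := by
  induction h with
  | base hv => exact ⟨_, Alt.base hv⟩
  | @step v w _ h2 h3 ih =>
    obtain ⟨F, hF⟩ := ih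
    exact (hF.closure hC hψ hm h2 h3).1

theorem Ev.facts {C : G.Subgraph} (hC : Good C) {ψ : V → ZMod 2} (hψ : Par C ψ) {m : V → V}
    (hm : NMx C m) {v : V} (h : Ev C m v) : v ∈ reach G C ∧ ψ v = 0 := by
  obtain ⟨F, hF⟩ := h.alt hC hψ hm
  exact ⟨hF.subset_reach hC.isOddCycle hm (Alt.facts hm.toIsM hm.nice hF).1,
    (hF.parity hC hψ hm).1⟩

theorem Ev.next {C : G.Subgraph} (hC : Good C) {ψ : V → ZMod 2} (hψ : Par C ψ) {m : V → V}
    (hm : NMx C m) {v w : V} (h : Ev C m v) (hvw : G.Adj v w) (hwC : w ∉ C.verts) :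
    w ∈ reach G C ∧ ψ w = 1 := by
  obtain ⟨F, hF⟩ := h.alt hC hψ hm
  exact (hF.closure hC hψ hm hvw hwC).2

/-- even vertices -/
def EE (C : G.Subgraph) : Set V := {v | ∃ m, NMx C m ∧ Ev C m v}

/-- odd vertices -/
def AA (C : G.Subgraph) : Set V := {w | w ∉ C.verts ∧ ∃ v ∈ EE C, G.Adj v w}

theorem EE_facts {C : G.Subgraph} (hC : Good C) {ψ : V → ZMod 2} (hψ : Par C ψ) {v : V}
    (hv : v ∈ EE C) : v ∈ reach G C ∧ ψ v = 0 := by
  obtain ⟨m, hm, h⟩ := hv
  exact h.facts hC hψ hm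

theorem AA_facts {C : G.Subgraph} (hC : Good C) {ψ : V → ZMod 2} (hψ : Par C ψ) {v : V}
    (hv : v ∈ AA C) : v ∈ reach G C ∧ ψ v = 1 := by
  obtain ⟨h1, w, ⟨m, hm, h⟩, hwv⟩ := hv
  exact h.next hC hψ hm hwv h1

/-- unfolding a stem -/
theorem stem_unfold {C : G.Subgraph} {b : V} : ∀ {u : V} (P : G.Walk u b) (m : V → V),
    IsMx G m → m u = u → Bl C m b → P.IsPath → StemR m P →
    (∀ x ∈ P.support, x ∈ C.verts → x = b) →
    ∃ m0, IsMx G m0 ∧ Bl C m0 b ∧ m0 b = b ∧ (∀ x, x ∉ P.support → m0 x = m x) ∧ Ev C m0 u ∧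
      ∀ x ∈ P.support, Ev C m0 x ∨ (x ∉ C.verts ∧ ∃ v, Ev C m0 v ∧ G.Adj v x)
  | _, .nil, m => fun hm hu hbl _ _ _ => by
      refine ⟨m, hm, hbl, hu, fun _ _ => rfl, Ev.base hbl.mem, fun x hx => Or.inl ?_⟩
      simp only [Walk.support_nil, List.mem_singleton] at hx
      subst hx
      exact Ev.base hbl.mem
  | _, .cons _ .nil, m => fun _ _ _ _ h _ => h.elim
  | u, .cons (v := x) h1 (.cons (v := y) h2 P), m => fun hm hu hbl hp hs hint => by
      have hpath := hp
      simp only [Walk.cons_isPath_iff, Walk.support_cons, List.mem_cons, not_or] at hp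
      obtain ⟨⟨hP, hx⟩, hux, hu'⟩ := hp
      have hxy : m x = y := hs.1
      have hcov : m x ≠ x := by rw [hxy]; exact h2.ne.symm
      obtain ⟨g1, g2, g3, g4, g5, g6⟩ := hm.toIsM.flip_facts hu hcov h1.ne
      rw [hxy] at g1 g2 g5 g6
      have hub : u ≠ b := fun h => hu' (h ▸ P.end_mem_support)
      have hxb : x ≠ b := fun h => hx (h ▸ P.end_mem_support)
      have huC : u ∉ C.verts := fun h => hub (hint u (by simp) h)
      have hxC : x ∉ C.verts := fun h => hxb (hint x (by simp) h)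
      have hbl' : Bl C (flip m u x) b := by
        refine ⟨hbl.mem, fun v hv hne => ?_, ?_⟩
        · have hvy : v ≠ y := by
            rintro rfl
            exact hne (hint v (by simp) hv)
          rw [g6 v (fun h => huC (h ▸ hv)) (fun h => hxC (h ▸ hv)) hvy]
          exact hbl.adj v hv hne
        · by_cases hby : b = y
          · subst hby
            rw [g5]
            exact fun h => h.adj_sub.ne rfl
          · rw [g6 b hub.symm hxb.symm hby]
            exact hbl.base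
      have hst' : StemR (flip m u x) P := by
        refine StemR.congr P (fun z hz => ?_) hs.2
        have hzP : z ∈ P.support := List.mem_of_mem_tail hz
        have hzy : z ≠ y := by
          rintro rfl
          have hnd := hP.support_nodup
          rw [← Walk.cons_tail_support] at hnd
          exact (List.nodup_cons.1 hnd).1 hz
        exact (g6 z (fun h => hu' (h ▸ hzP)) (fun h => hx (h ▸ hzP)) hzy).symm
      obtain ⟨m0, i1, i2, i3, i4, i5, i6⟩ := stem_unfold P (flip m u x) (hm.flip hu h1) g5 hbl' hP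
        hst' (fun z hz hzC => hint z (by simp [hz]) hzC)
      have hm0x : m0 x = u := by rw [i4 x hx, g4]
      have hu0 : Ev C m0 u := by
        rw [← hm0x]
        exact Ev.step i5 h2.symm hxC
      refine ⟨m0, i1, i2, i3, fun z hz => ?_, hu0, fun z hz => ?_⟩
      · simp only [Walk.support_cons, List.mem_cons, not_or] at hz
        rw [i4 z hz.2.2]
        refine g6 z hz.1 hz.2.1 ?_
        rintro rfl
        exact hz.2.2 P.start_mem_support
      · simp only [Walk.support_cons, List.mem_cons] at hz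
        rcases hz with rfl | rfl | hz
        · exact Or.inl hu0
        · exact Or.inr ⟨hxC, y, i5, h2.symm⟩
        · exact i6 z hz

theorem reach_eq {C : G.Subgraph} (hC : Good C) {ψ : V → ZMod 2} (hψ : Par C ψ) :
    reach G C = EE C ∪ AA C := by
  ext x
  constructor
  · rintro ⟨M, hM, u, b, P, hB, hS, hx⟩
    obtain ⟨m, hm, hc⟩ := exists_corr hM.1
    have hmx : IsMx G m := (hc.isMax_iff hm).1 hM
    have hbl : Bl C m b := (isBlossom_iff hm hc hC.isOddCycle).1 hB
    have hu : m u = u := by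
      by_contra h
      exact hS.uncovered ((hc.verts u).2 h)
    have hhd : ∀ e ∈ P.edges.head?, e ∉ M.edgeSet := by
      intro e he heM
      cases P with
      | nil => simp at he
      | @cons _ y _ h q =>
        simp only [Walk.edges_cons, List.head?_cons, Option.mem_def, Option.some.injEq] at he
        rw [← he, Subgraph.mem_edgeSet, hc.adj, hu] at heM
        exact heM.2 heM.1
    have hst := StemR.of_chain hc P hS.even_length hS.alternating hhd
    obtain ⟨m0, i1, i2, i3, i4, i5, i6⟩ := stem_unfold P m hmx hu hbl hS.isPath hst hS.inter_eq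
    have hN : NMx C m0 := ⟨i1, i2.nice i1.toIsM i3⟩
    rcases hx with hx | hx
    · exact Or.inl ⟨m0, hN, Ev.base hx⟩
    · rcases i6 x hx with h | ⟨h1, v, h2, h3⟩
      · exact Or.inl ⟨m0, hN, h⟩
      · exact Or.inr ⟨h1, v, ⟨m0, hN, h2⟩, h3⟩
  · rintro (h | h)
    · exact (EE_facts hC hψ h).1
    · exact (AA_facts hC hψ h).1

theorem Good.exists_nmx {C : G.Subgraph} (hC : Good C) : ∃ m, NMx C m := by
  obtain ⟨ψ, hψ⟩ := hC.exists_par
  obtain ⟨x, hx⟩ := hC.nonempty
  rw [reach_eq hC hψ] at hx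
  rcases hx with ⟨m, hm, -⟩ | ⟨-, v, ⟨m, hm, -⟩, -⟩
  · exact ⟨m, hm⟩
  · exact ⟨m, hm⟩

/-- orbits of two involutions -/
inductive Orb (f g : V → V) (a : V) : V → Prop
  | refl : Orb f g a a
  | left {x : V} : Orb f g a x → Orb f g a (f x)
  | right {x : V} : Orb f g a x → Orb f g a (g x)

inductive FwI (m m0 : V → V) (p : V) : V → Prop
  | base : FwI m m0 p p
  | step {x : V} : FwI m m0 p x → m0 (m x) ≠ m x → FwI m m0 p (m0 (m x))

omit [Fintype V] in
theorem Ev.rot_iff {C : G.Subgraph} {m κ : V → V} {v : V} (h : Ev C m v) : Ev C (rot C κ m) v := by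
  induction h with
  | base hv => exact Ev.base hv
  | @step v w _ h2 h3 ih =>
    have : rot C κ m w = m w := rot_off h3
    rw [← this]
    exact Ev.step ih h2 h3

/-- every nice maximum matching matches the odd vertices into the even vertices -/
theorem odd_to_even {C : G.Subgraph} (hC : Good C) {ψ : V → ZMod 2} (hψ : Par C ψ) {m0 : V → V}
    (hm0 : NMx C m0) {a : V} (ha : a ∈ AA C) : m0 a ∈ EE C := by
  classical
  obtain ⟨haC, v, ⟨m1, hm1, hv⟩, hva⟩ := ha
  have hψa : ψ a = 1 := (AA_facts hC hψ ⟨haC, v, ⟨m1, hm1, hv⟩, hva⟩).2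
  -- normalise on `C`
  obtain ⟨κ, b, hκ, hm0κ⟩ := hm0.nice
  set m : V → V := rot C κ m1 with hmdef
  have hm : NMx C m := ⟨isMx_rot hm1.toIsMx hm1.nice hκ, κ, b, hκ, fun x hx => rot_on hx⟩
  have hv' : Ev C m v := hv.rot_iff
  have hmC : ∀ x ∈ C.verts, m x = m0 x := fun x hx => by rw [hm0κ x hx, hmdef, rot_on hx]
  -- the orbit of `a`
  set Y : Set V := {x | Orb m m0 a x} with hY
  have hYm : ∀ x, x ∈ Y → m x ∈ Y := fun x hx => Orb.left hx
  have hYm0 : ∀ x, x ∈ Y → m0 x ∈ Y := fun x hx => Orb.right hx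
  have hYm' : ∀ x, m x ∈ Y → x ∈ Y := fun x hx => by
    have := hYm _ hx
    rwa [hm.inv] at this
  have hYm0' : ∀ x, m0 x ∈ Y → x ∈ Y := fun x hx => by
    have := hYm0 _ hx
    rwa [hm0.inv] at this
  have haY : a ∈ Y := Orb.refl
  have hYC : ∀ x ∈ Y, x ∉ C.verts := by
    intro x hx
    have hx' : Orb m m0 a x := hx
    induction hx' with
    | refl => exact haC
    | left h ih => exact hm.nice.maps_not hm.toIsM (ih h)
    | right h ih => exact hm0.nice.maps_not hm0.toIsM (ih h)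
  -- switching on `Y`
  have hsw : ∀ f g : V → V, IsM G f → IsM G g → (∀ x, x ∈ Y → g x ∈ Y) → (∀ x, f x ∈ Y → x ∈ Y) →
      IsM G (fun x => if x ∈ Y then g x else f x) := by
    intro f g hf hg h1 h2
    constructor
    · intro x
      by_cases hx : x ∈ Y
      · simp only [hx, if_true, h1 x hx, hg.inv]
      · have : f x ∉ Y := fun h => hx (h2 x h)
        simp only [hx, if_false, this, hf.inv]
    · intro x hne
      by_cases hx : x ∈ Y
      · simp only [hx, if_true] at hne ⊢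
        exact hg.adj x hne
      · simp only [hx, if_false] at hne ⊢
        exact hf.adj x hne
  have hfx : ∀ f g : V → V, fx (fun x => if x ∈ Y then g x else f x) =
      {x | x ∈ Y ∧ g x = x}.ncard + {x | x ∉ Y ∧ f x = x}.ncard := by
    intro f g
    unfold fx
    rw [← Set.ncard_union_eq]
    · congr 1
      ext x
      simp only [Set.mem_ofPred_eq, Set.mem_union]
      by_cases hx : x ∈ Y <;> simp [hx]
    · rw [Set.disjoint_left]
      rintro x ⟨h1, -⟩ ⟨h2, -⟩
      exact h2 h1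
  have hfx' : ∀ f : V → V, fx f = {x | x ∈ Y ∧ f x = x}.ncard + {x | x ∉ Y ∧ f x = x}.ncard := by
    intro f
    rw [← hfx f f]
    congr 1
    funext x
    split_ifs <;> rfl
  set M1 : V → V := fun x => if x ∈ Y then m0 x else m x with hM1
  have hM1on : ∀ x ∈ Y, M1 x = m0 x := fun x hx => by simp [hM1, hx]
  have hM1off : ∀ x, x ∉ Y → M1 x = m x := fun x hx => by simp [hM1, hx]
  have hM1N : NMx C M1 := by
    refine ⟨⟨hsw m m0 hm.toIsM hm0.toIsM hYm0 hYm', fun m' hm' => ?_⟩, κ, b, hκ, fun x hx => ?_⟩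
    · have h1 := hm.max m' hm'
      have h2 := hm0.max _ (hsw m0 m hm0.toIsM hm.toIsM hYm hYm0')
      rw [hfx m0 m, hfx' m0] at h2
      rw [hfx' m] at h1
      rw [hM1, hfx m m0]
      have h3 := hm.max _ hm0.toIsM
      have h4 := hm0.max _ hm.toIsM
      omega
    · have hxY : x ∉ Y := fun h => hYC x h hx
      rw [hM1off x hxY, hmC x hx, hm0κ x hx]
  -- a common entry point
  have entry : ∀ u, Ev C m u → Ev C M1 u ∨ ∃ p u', p ∈ Y ∧ Ev C m u' ∧ Ev C M1 u' ∧ G.Adj u' p := by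
    intro u hu
    induction hu with
    | base hv => exact Or.inl (Ev.base hv)
    | @step u w h1 h2 h3 ih =>
      rcases ih with ih | ih
      · by_cases hw : w ∈ Y
        · exact Or.inr ⟨w, u, hw, h1, ih, h2⟩
        · left
          rw [← hM1off w hw]
          exact Ev.step ih h2 h3
      · exact Or.inr ih
  obtain ⟨p, u', hpY, hu1, hu2, hup⟩ : ∃ p u', p ∈ Y ∧ Ev C m u' ∧ Ev C M1 u' ∧ G.Adj u' p := by
    rcases entry v hv' with h | h
    · exact ⟨a, v, haY, hv', h, hva⟩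
    · exact h
  -- forward and backward orbits of `p`
  have fw : ∀ x, FwI m m0 p x → x ∈ Y ∧ ∃ u, Ev C m u ∧ G.Adj u x := by
    intro x hx
    induction hx with
    | base => exact ⟨hpY, u', hu1, hup⟩
    | @step x _ hne ih =>
      obtain ⟨ihY, u, hu, hux⟩ := ih
      refine ⟨hYm0 _ (hYm _ ihY), m x, Ev.step hu hux (hYC x ihY), ?_⟩
      exact hm0.adj _ hne
  have fwE : ∀ x, FwI m m0 p x → Ev C m (m x) := by
    intro x hx
    obtain ⟨h1, u, hu, hux⟩ := fw x hx
    exact Ev.step hu hux (hYC x h1)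
  have bw : ∀ x, FwI m0 m p x → x ∈ Y ∧ ∃ u, Ev C M1 u ∧ G.Adj u x := by
    intro x hx
    induction hx with
    | base => exact ⟨hpY, u', hu2, hup⟩
    | @step x _ hne ih =>
      obtain ⟨ihY, u, hu, hux⟩ := ih
      refine ⟨hYm _ (hYm0 _ ihY), m0 x, ?_, ?_⟩
      · rw [← hM1on x ihY]
        exact Ev.step hu hux (hYC x ihY)
      · exact hm.adj _ hne
  have bwE : ∀ x, FwI m0 m p x → Ev C M1 (m0 x) := by
    intro x hx
    obtain ⟨h1, u, hu, hux⟩ := bw x hx
    rw [← hM1on x h1]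
    exact Ev.step hu hux (hYC x h1)
  let Z : V → Prop := fun x => FwI m m0 p x ∨ (∃ y, FwI m m0 p y ∧ x = m y) ∨
    FwI m0 m p x ∨ (∃ y, FwI m0 m p y ∧ x = m0 y)
  have Zm : ∀ x, Z x → Z (m x) := by
    rintro x (h | ⟨y, hy, rfl⟩ | h | ⟨y, hy, rfl⟩)
    · exact Or.inr (Or.inl ⟨x, h, rfl⟩)
    · rw [hm.inv]; exact Or.inl hy
    · cases h with
      | base => exact Or.inr (Or.inl ⟨p, FwI.base, rfl⟩)
      | @step y hy hne =>
        rw [hm.inv]
        exact Or.inr (Or.inr (Or.inr ⟨y, hy, rfl⟩))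
    · by_cases hne : m (m0 y) = m0 y
      · rw [hne]
        exact Or.inr (Or.inr (Or.inr ⟨y, hy, rfl⟩))
      · exact Or.inr (Or.inr (Or.inl (FwI.step hy hne)))
  have Zm0 : ∀ x, Z x → Z (m0 x) := by
    rintro x (h | ⟨y, hy, rfl⟩ | h | ⟨y, hy, rfl⟩)
    · cases h with
      | base => exact Or.inr (Or.inr (Or.inr ⟨p, FwI.base, rfl⟩))
      | @step y hy hne =>
        rw [hm0.inv]
        exact Or.inr (Or.inl ⟨y, hy, rfl⟩)
    · by_cases hne : m0 (m y) = m y
      · rw [hne]
        exact Or.inr (Or.inl ⟨y, hy, rfl⟩)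
      · exact Or.inl (FwI.step hy hne)
    · exact Or.inr (Or.inr (Or.inr ⟨x, h, rfl⟩))
    · rw [hm0.inv]; exact Or.inr (Or.inr (Or.inl hy))
  have Zback : ∀ x, Orb m m0 a x → Z x → Z a := by
    intro x hx
    induction hx with
    | refl => exact id
    | left _ ih =>
      intro h
      have := Zm _ h
      rw [hm.inv] at this
      exact ih this
    | right _ ih =>
      intro h
      have := Zm0 _ h
      rw [hm0.inv] at this
      exact ih this
  have hZa : Z a := Zback p hpY (Or.inl FwI.base)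
  rcases hZa with h | ⟨y, hy, hay⟩ | h | ⟨y, hy, hay⟩
  · cases h with
    | base => exact ⟨M1, hM1N, bwE a FwI.base⟩
    | @step y hy hne =>
      rw [hm0.inv]
      exact ⟨m, hm, fwE y hy⟩
  · have := (fwE y hy).facts hC hψ hm
    rw [← hay, hψa] at this
    exact absurd this.2 one_ne_zero
  · exact ⟨M1, hM1N, bwE a h⟩
  · have := (bwE y hy).facts hC hψ hM1N
    rw [← hay, hψa] at this
    exact absurd this.2 one_ne_zero

/-- even vertices off `C` -/
def DD (C : G.Subgraph) : Set V := EE C \ C.verts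

theorem ncard_AA_le {C : G.Subgraph} (hC : Good C) : (AA C).ncard ≤ (DD C).ncard := by
  obtain ⟨ψ, hψ⟩ := hC.exists_par
  obtain ⟨m, hm⟩ := hC.exists_nmx
  refine Set.ncard_le_ncard_of_injOn m (fun a ha => ?_) (fun _ _ _ _ h => hm.toIsM.inj h)
    (Set.toFinite _)
  exact ⟨odd_to_even hC hψ hm ha, hm.nice.maps_not hm.toIsM ha.1⟩

/-- the structure of the reach set -/
theorem reach_structure {C : G.Subgraph} (hC : Good C) :
    ∃ D A : Set V, reach G C = D ∪ C.verts ∪ A ∧ Disjoint D C.verts ∧ Disjoint D A ∧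
      Disjoint C.verts A ∧ (∀ v ∈ D, ∀ w, G.Adj v w → w ∈ A) ∧
      (∀ v ∈ C.verts, ∀ w, G.Adj v w → w ∈ C.verts ∪ A) ∧ A.ncard ≤ D.ncard := by
  obtain ⟨ψ, hψ⟩ := hC.exists_par
  obtain ⟨m, hm⟩ := hC.exists_nmx
  refine ⟨DD C, AA C, ?_, ?_, ?_, ?_, ?_, ?_, ncard_AA_le hC⟩
  · rw [reach_eq hC hψ]
    unfold DD
    rw [Set.sdiff_union_of_subset]
    exact fun x hx => ⟨m, hm, Ev.base hx⟩
  · exact Set.disjoint_sdiff_left
  · rw [Set.disjoint_left]
    intro x h1 h2
    have e1 := (EE_facts hC hψ h1.1).2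
    have e2 := (AA_facts hC hψ h2).2
    rw [e1] at e2
    exact zero_ne_one e2
  · rw [Set.disjoint_left]
    intro x h1 h2
    exact h2.1 h1
  · intro v hv w hvw
    have hvE := EE_facts hC hψ hv.1
    have hwC : w ∉ C.verts := by
      intro hw
      have := hψ.ne v w hvE.1 (verts_subset_reach hC.nonempty hw) hvw
        (fun h => hv.2 (C.edge_vert h))
      rw [hvE.2, hψ.zero w hw] at this
      exact this rfl
    exact ⟨hwC, v, hv.1, hvw⟩
  · intro v hv w hvw
    by_cases hw : w ∈ C.verts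
    · exact Or.inl hw
    · exact Or.inr ⟨hw, v, ⟨m, hm, Ev.base hv⟩, hvw⟩

end Pool.Agent.Lib_MP_079569_co
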