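import Mathlib
import Pool.Agent.Lib_MP_079569_co.Reach

/-!
The determinant identity.
-/

namespace Pool.Agent.Lib_MP_079569_co

open SimpleGraph Finset

variable {V : Type*} {G : SimpleGraph V}

open Classical in
/-- the part of the flower decomposition containing `v` -/
noncomputable def part (G : SimpleGraph V) (v : V) : Option {C : G.Subgraph // IsOddCycle G C} :=
  if h : ∃ C : {C : G.Subgraph // IsOddCycle G C}, v ∈ reach G C.1 then some h.choose else none

theorem part_eq_some (h : RDisjoint G) (v : V) (C : {C : G.Subgraph // IsOddCycle G C}) :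
    part G v = some C ↔ v ∈ reach G C.1 := by
  classical
  unfold part
  constructor
  · intro h'
    split_ifs at h' with h1
    rw [Option.some.injEq] at h'
    rw [← h']
    exact h1.choose_spec
  · intro hv
    have h1 : ∃ C : {C : G.Subgraph // IsOddCycle G C}, v ∈ reach G C.1 := ⟨C, hv⟩
    rw [dif_pos h1, Option.some.injEq]
    by_contra hne
    exact Set.disjoint_left.1 (h.disjoint _ _ h1.choose.2 C.2 fun h => hne (Subtype.ext h))
      h1.choose_spec hv

theorem part_eq_none (v : V) : part G v = none ↔ v ∈ bipartitePart G := by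
  classical
  unfold part bipartitePart
  constructor
  · intro h'
    split_ifs at h' with h1
    intro C hC hv
    exact h1 ⟨⟨C, hC⟩, hv⟩
  · intro hv
    rw [dif_neg]
    rintro ⟨C, hC⟩
    exact hv C.1 C.2 hC

variable [Fintype V]

/-- permutations along edges preserve the reach sets -/
theorem perm_preserves {C : G.Subgraph} (hC : Good C) (σ : Equiv.Perm V)
    (hσ : ∀ v, G.Adj v (σ v)) {v : V} (hv : v ∈ reach G C) : σ v ∈ reach G C := by
  obtain ⟨D, A, hR, -, -, -, hD, hCC, hcard⟩ := reach_structure hC
  have hσ' : ∀ v, G.Adj v (σ.symm v) := fun v => by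
    have := hσ (σ.symm v)
    rw [Equiv.apply_symm_apply] at this
    exact this.symm
  have himg : σ.symm '' D = A := by
    refine Set.eq_of_subset_of_ncard_le ?_ ?_ (Set.toFinite _)
    · rintro _ ⟨d, hd, rfl⟩
      exact hD d hd _ (hσ' d)
    · rw [Set.ncard_image_of_injective _ σ.symm.injective]
      exact hcard
  rw [hR] at hv ⊢
  rcases hv with (hv | hv) | hv
  · exact Or.inr (hD v hv _ (hσ v))
  · rcases hCC v hv _ (hσ v) with h | h
    · exact Or.inl (Or.inr h)
    · exact Or.inr h
  · rw [← himg] at hv
    obtain ⟨d, hd, rfl⟩ := hv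
    rw [Equiv.apply_symm_apply]
    exact Or.inl (Or.inl hd)

theorem perm_preserves_iff {C : G.Subgraph} (hC : Good C) (σ : Equiv.Perm V)
    (hσ : ∀ v, G.Adj v (σ v)) {v : V} : σ v ∈ reach G C ↔ v ∈ reach G C := by
  refine ⟨fun h => ?_, fun h => perm_preserves hC σ hσ h⟩
  have hσ' : ∀ v, G.Adj v (σ.symm v) := fun v => by
    have := hσ (σ.symm v)
    rw [Equiv.apply_symm_apply] at this
    exact this.symm
  have := perm_preserves hC σ.symm hσ' h
  rwa [Equiv.symm_apply_apply] at this

theorem part_perm (h : RDisjoint G) (σ : Equiv.Perm V) (hσ : ∀ v, G.Adj v (σ v)) (v : V) :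
    part G (σ v) = part G v := by
  cases hp : part G v with
  | none =>
    rw [part_eq_none] at hp ⊢
    intro C hC hv
    exact hp C hC ((perm_preserves_iff (h.good hC) σ hσ).1 hv)
  | some C =>
    rw [part_eq_some h] at hp ⊢
    exact perm_preserves (h.good C.2) σ hσ hp

omit [Fintype V] in
theorem det_sub (M : Matrix V V ℝ) {α β : Type*} [Fintype α] [DecidableEq α] [Fintype β]
    [DecidableEq β] (f : α → V) (g : β → V) (e : α ≃ β) (h : ∀ a, g (e a) = f a) :
    (M.submatrix f f).det = (M.submatrix g g).det := by
  have : M.submatrix f f = (M.submatrix g g).submatrix e e := by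
    ext i j
    simp [h]
  rw [this, Matrix.det_submatrix_equiv_self]

theorem det_congr_of_prod {n : Type*} [Fintype n] [DecidableEq n] (M M' : Matrix n n ℝ)
    (h : ∀ σ : Equiv.Perm n, ∏ i, M (σ i) i = ∏ i, M' (σ i) i) : M.det = M'.det := by
  rw [Matrix.det_apply, Matrix.det_apply]
  exact sum_congr rfl fun σ _ => by rw [h σ]

open Classical in
theorem det_zeroed (h : RDisjoint G) :
    (G.adjMatrix ℝ).det = (Matrix.of fun i j : V =>
      if part G i = part G j then G.adjMatrix ℝ i j else 0).det := by
  refine det_congr_of_prod _ _ fun σ => ?_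
  by_cases hσ : ∀ v, G.Adj v (σ v)
  · refine prod_congr rfl fun i _ => ?_
    rw [Matrix.of_apply, if_pos (part_perm h σ hσ i)]
  · push Not at hσ
    obtain ⟨v, hv⟩ := hσ
    have h0 : G.adjMatrix ℝ (σ v) v = 0 := by
      rw [SimpleGraph.adjMatrix_apply, if_neg]
      exact fun h => hv h.symm
    have h1 : (Matrix.of fun i j : V =>
      if part G i = part G j then G.adjMatrix ℝ i j else 0) (σ v) v = 0 := by
      rw [Matrix.of_apply, h0, ite_self]
    exact (prod_eq_zero (f := fun i => G.adjMatrix ℝ (σ i) i) (mem_univ v) h0).trans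
      (prod_eq_zero (f := fun i => (Matrix.of fun i j : V =>
      if part G i = part G j then G.adjMatrix ℝ i j else 0) (σ i) i) (mem_univ v) h1).symm

open Classical in
theorem det_main (h : RDisjoint G) :
    (G.adjMatrix ℝ).det = ((G.induce (bipartitePart G)).adjMatrix ℝ).det *
      ∏ᶠ C : {C : G.Subgraph // IsOddCycle G C}, ((G.induce (reach G C.1)).adjMatrix ℝ).det := by
  have : Finite G.Subgraph := inferInstance
  have : Fintype {C : G.Subgraph // IsOddCycle G C} := Fintype.ofFinite _
  rw [finprod_eq_prod_of_fintype]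
  let e := Fintype.equivFin (Option {C : G.Subgraph // IsOddCycle G C})
  let b : V → Fin (Fintype.card (Option {C : G.Subgraph // IsOddCycle G C})) :=
    fun v => e (part G v)
  have hb : ∀ (v : V) a, b v = e a ↔ part G v = a := fun v a => e.injective.eq_iff
  set M : Matrix V V ℝ := G.adjMatrix ℝ with hM
  set M' : Matrix V V ℝ := Matrix.of fun i j => if part G i = part G j then M i j else 0 with hM'
  have hdet : M.det = M'.det := det_zeroed h
  have hbt : M'.BlockTriangular b := by
    intro i j hij
    rw [hM', Matrix.of_apply, if_neg]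
    intro h
    have : b i = b j := congrArg e h
    exact hij.ne this.symm
  have hblock : ∀ (a : Option {C : G.Subgraph // IsOddCycle G C}) (S : Set V),
      (∀ v, part G v = a ↔ v ∈ S) →
      (M'.toSquareBlock b (e a)).det = ((G.induce S).adjMatrix ℝ).det := by
    intro a S hS
    have h1 : M'.toSquareBlock b (e a) =
        M.submatrix (fun v : {v // b v = e a} => (v : V)) (fun v : {v // b v = e a} => (v : V)) := by
      ext i j
      have hi : part G i.1 = a := (hb _ _).1 i.2
      have hj : part G j.1 = a := (hb _ _).1 j.2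
      change (if part G i.1 = part G j.1 then M i.1 j.1 else 0) = M i.1 j.1
      rw [if_pos (hi.trans hj.symm)]
    have h2 : (G.induce S).adjMatrix ℝ =
        M.submatrix (fun v : S => (v : V)) (fun v : S => (v : V)) := by
      ext i j
      simp [hM, SimpleGraph.adjMatrix_apply]
    rw [h1, h2]
    exact det_sub M _ _ (Equiv.subtypeEquivRight fun v => (hb v a).trans (hS v)) fun _ => rfl
  rw [hdet, hbt.det_fintype, ← Equiv.prod_comp e, Fintype.prod_option,
    hblock none _ (fun v => part_eq_none v)]
  congr 1
  exact prod_congr rfl fun C _ => hblock (some C) _ (fun v => part_eq_some h v C)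

end Pool.Agent.Lib_MP_079569_co
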